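import Mathlib

open IsLocalRing

namespace Pool.Agent.H12.UF

theorem dvd_of_dvd_algebraMap {R P : Type*} [CommRing R] [CommRing P] [Algebra R P]
    [Module.FaithfullyFlat R P] {r x : R} (h : algebraMap R P r ∣ algebraMap R P x) : r ∣ x := by
  have h1 : x ∈ (Ideal.map (algebraMap R P) (Ideal.span {r})).comap (algebraMap R P) := by
    rw [Ideal.mem_comap, Ideal.map_span, Set.image_singleton, Ideal.mem_span_singleton]
    exact h
  rw [Ideal.comap_map_eq_self_of_faithfullyFlat, Ideal.mem_span_singleton] at h1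
  exact h1

theorem colon_principal {R P : Type*} [CommRing R] [CommRing P] [IsDomain P]
    [IsLocalRing P] [UniqueFactorizationMonoid P] [Algebra R P] [Module.FaithfullyFlat R P]
    (p a : R) (hp : p ≠ 0) : ∃ r : R, p ∣ r * a ∧ ∀ x, p ∣ x * a → r ∣ x := by
  classical
  have hinj : Function.Injective (algebraMap R P) := FaithfulSMul.algebraMap_injective R P
  have hp' : algebraMap R P p ≠ 0 := by
    intro h
    exact hp (hinj (by rw [h, map_zero]))
  obtain ⟨α, β, c, hαβ, h1, h2⟩ := UniqueFactorizationMonoid.exists_reduced_factors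
    (algebraMap R P p) hp' (algebraMap R P a)
  have hc : c ≠ 0 := by
    rintro rfl
    exact hp' (by rw [← h1, zero_mul])
  have hα : α ≠ 0 := by
    rintro rfl
    exact hp' (by rw [← h1, mul_zero])
  have hdiv : ∀ x : P, algebraMap R P p ∣ x * algebraMap R P a → α ∣ x := by
    intro x hx
    rw [← h1, ← h2, mul_comm c β, ← mul_assoc, mul_comm (x * β) c] at hx
    have := (mul_dvd_mul_iff_left hc).1 hx
    exact hαβ.dvd_of_dvd_mul_right this
  have hrel : ∑ i : Fin 2, (![a, -p] : Fin 2 → R) i • (![α, β] : Fin 2 → P) i = 0 := by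
    rw [Fin.sum_univ_two]
    simp only [Matrix.cons_val_zero, Matrix.cons_val_one, Algebra.smul_def, map_neg]
    rw [← h1, ← h2]
    ring
  obtain ⟨k, A, y, hy, hA⟩ := Module.Flat.isTrivialRelation_of_sum_smul_eq_zero (R := R) (M := P)
    (f := (![a, -p] : Fin 2 → R)) (x := (![α, β] : Fin 2 → P)) hrel
  have hg : α = ∑ j, algebraMap R P (A 0 j) * y j := by
    have := hy 0
    simpa [Algebra.smul_def] using this
  have hpA : ∀ j, p ∣ A 0 j * a := by
    intro j
    have := hA j
    rw [Fin.sum_univ_two] at this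
    simp only [Matrix.cons_val_zero, Matrix.cons_val_one] at this
    refine ⟨A 1 j, ?_⟩
    linear_combination this
  have hw : ∀ j, α ∣ algebraMap R P (A 0 j) := by
    intro j
    apply hdiv
    rw [← map_mul]
    exact map_dvd _ (hpA j)
  choose w hw using hw
  have hone : (1 : P) = ∑ j, w j * y j := by
    have h3 : α * 1 = α * ∑ j, w j * y j := by
      rw [Finset.mul_sum, mul_one]
      calc α = ∑ j, algebraMap R P (A 0 j) * y j := hg
        _ = _ := by
          refine Finset.sum_congr rfl fun j _ => ?_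
          rw [hw j]; ring
    exact mul_left_cancel₀ hα h3
  obtain ⟨j, hj⟩ : ∃ j, IsUnit (w j * y j) := by
    by_contra h
    push Not at h
    have : (1 : P) ∈ maximalIdeal P := by
      rw [hone]
      exact Ideal.sum_mem _ fun j _ => (mem_maximalIdeal _).2 (h j)
    exact (Ideal.ne_top_iff_one _).1 (maximalIdeal.isMaximal P).ne_top this
  have hwj : IsUnit (w j) := isUnit_of_mul_isUnit_left hj
  refine ⟨A 0 j, hpA j, fun x hx => ?_⟩
  apply dvd_of_dvd_algebraMap (P := P)
  have h4 : α ∣ algebraMap R P x := by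
    apply hdiv
    rw [← map_mul]
    exact map_dvd _ hx
  rw [hw j]
  obtain ⟨v, hv⟩ := hwj
  obtain ⟨t, ht⟩ := h4
  refine ⟨↑v⁻¹ * t, ?_⟩
  rw [ht, ← hv]
  have : (v : P) * ↑v⁻¹ = 1 := Units.mul_inv v
  linear_combination (-(α * t)) * this

theorem ufd_descent {R P : Type*} [CommRing R] [IsNoetherianRing R] [CommRing P] [IsDomain P]
    [IsLocalRing P] [UniqueFactorizationMonoid P] [Algebra R P] [Module.FaithfullyFlat R P] :
    IsDomain R ∧ UniqueFactorizationMonoid R := by
  have hinj : Function.Injective (algebraMap R P) := FaithfulSMul.algebraMap_injective R P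
  have hdom : IsDomain R := hinj.isDomain (algebraMap R P)
  refine ⟨hdom, ?_⟩
  refine { irreducible_iff_prime := ?_ }
  intro p
  refine ⟨fun hp => ⟨hp.ne_zero, hp.not_isUnit, fun a b hab => ?_⟩, fun hp => hp.irreducible⟩
  obtain ⟨r, hr, hr2⟩ := colon_principal (P := P) p a hp.ne_zero
  have hrp : r ∣ p := hr2 p ⟨a, rfl⟩
  rcases (Irreducible.dvd_iff hp).1 hrp with h | h
  · left
    exact (IsUnit.dvd_mul_left h).1 hr
  · right
    have : r ∣ b := hr2 b (by rw [mul_comm]; exact hab)
    exact h.dvd.trans this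

end Pool.Agent.H12.UF
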