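import Mathlib

namespace Pool.Agent.H12.UF

section

variable {R P : Type*} [CommRing R] (m : Ideal R) [CommRing P] [Algebra R P]
  (M : Ideal P)

/-- `P` has the same truncations as `R` -/
structure SameJets : Prop where
  surj : ∀ (j : ℕ) (p : P), ∃ r : R, p - algebraMap R P r ∈ M ^ j
  mem_iff : ∀ (j : ℕ) (r : R), algebraMap R P r ∈ M ^ j ↔ r ∈ m ^ j

variable {m M}

theorem SameJets.sub_mem (H : SameJets m M) {j : ℕ} {p : P} {r s : R}
    (hr : p - algebraMap R P r ∈ M ^ j) (hs : p - algebraMap R P s ∈ M ^ j) : r - s ∈ m ^ j := by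
  rw [← H.mem_iff, map_sub]
  have : algebraMap R P r - algebraMap R P s
      = (p - algebraMap R P s) - (p - algebraMap R P r) := by ring
  rw [this]
  exact Ideal.sub_mem _ hs hr

/-- a truncation -/
noncomputable def SameJets.rho (H : SameJets m M) (n : ℕ) (p : P) : R := (H.surj n p).choose

theorem SameJets.rho_spec (H : SameJets m M) (n : ℕ) (p : P) :
    p - algebraMap R P (H.rho n p) ∈ M ^ n := (H.surj n p).choose_spec

theorem SameJets.mk_eq (H : SameJets m M) {n : ℕ} {p : P} {r s : R}
    (hr : p - algebraMap R P r ∈ M ^ n) (hs : p - algebraMap R P s ∈ M ^ n) :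
    (Submodule.Quotient.mk r : R ⧸ (m ^ n • ⊤ : Submodule R R)) = Submodule.Quotient.mk s := by
  rw [Submodule.Quotient.eq, smul_eq_mul, Ideal.mul_top]
  exact H.sub_mem hr hs

/-- the comparison map -/
noncomputable def SameJets.theta (H : SameJets m M) : P →ₗ[R] AdicCompletion m R where
  toFun p := ⟨fun n => Submodule.Quotient.mk (H.rho n p), by
    intro i j hij
    change (Submodule.Quotient.mk (H.rho j p) : R ⧸ (m ^ i • ⊤ : Submodule R R)) = _
    exact H.mk_eq (Ideal.pow_le_pow_right hij (H.rho_spec j p)) (H.rho_spec i p)⟩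
  map_add' p q := by
    apply AdicCompletion.ext
    intro n
    change (Submodule.Quotient.mk (H.rho n (p + q)) : R ⧸ (m ^ n • ⊤ : Submodule R R)) =
      Submodule.Quotient.mk (H.rho n p) + Submodule.Quotient.mk (H.rho n q)
    rw [← Submodule.Quotient.mk_add]
    refine H.mk_eq (H.rho_spec n _) ?_
    rw [map_add]
    have : p + q - (algebraMap R P (H.rho n p) + algebraMap R P (H.rho n q)) =
      (p - algebraMap R P (H.rho n p)) + (q - algebraMap R P (H.rho n q)) := by ring
    rw [this]
    exact Ideal.add_mem _ (H.rho_spec n p) (H.rho_spec n q)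
  map_smul' r p := by
    apply AdicCompletion.ext
    intro n
    change (Submodule.Quotient.mk (H.rho n (r • p)) : R ⧸ (m ^ n • ⊤ : Submodule R R)) =
      r • Submodule.Quotient.mk (H.rho n p)
    rw [← Submodule.Quotient.mk_smul]
    refine H.mk_eq (H.rho_spec n _) ?_
    rw [smul_eq_mul, map_mul, Algebra.smul_def]
    have : algebraMap R P r * p - algebraMap R P r * algebraMap R P (H.rho n p) =
      algebraMap R P r * (p - algebraMap R P (H.rho n p)) := by ring
    rw [this]
    exact Ideal.mul_mem_left _ _ (H.rho_spec n p)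

theorem SameJets.theta_val (H : SameJets m M) (p : P) (n : ℕ) :
    (H.theta p).val n = Submodule.Quotient.mk (H.rho n p) := rfl

theorem SameJets.theta_injective (H : SameJets m M) [IsHausdorff M P] :
    Function.Injective H.theta := by
  rw [← LinearMap.ker_eq_bot, LinearMap.ker_eq_bot']
  intro p hp
  apply IsHausdorff.haus (I := M) (M := P) inferInstance
  intro n
  rw [SModEq.zero, smul_eq_mul, Ideal.mul_top]
  have h1 : (Submodule.Quotient.mk (H.rho n p) : R ⧸ (m ^ n • ⊤ : Submodule R R)) = 0 := by
    rw [← H.theta_val, hp]; rfl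
  rw [Submodule.Quotient.mk_eq_zero, smul_eq_mul, Ideal.mul_top, ← H.mem_iff] at h1
  have h2 := Ideal.add_mem _ (H.rho_spec n p) h1
  rwa [sub_add_cancel] at h2

theorem SameJets.theta_surjective (H : SameJets m M) [IsPrecomplete M P] :
    Function.Surjective H.theta := by
  intro y
  choose r hr using fun n => Submodule.Quotient.mk_surjective (m ^ n • ⊤ : Submodule R R) (y.val n)
  have hc : ∀ {i j : ℕ}, i ≤ j → algebraMap R P (r i) - algebraMap R P (r j) ∈ M ^ i := by
    intro i j hij
    rw [← map_sub, H.mem_iff]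
    have h1 := y.2 hij
    change AdicCompletion.transitionMap m R hij (y.val j) = y.val i at h1
    rw [← hr i, ← hr j] at h1
    have h2 : (Submodule.Quotient.mk (r j) : R ⧸ (m ^ i • ⊤ : Submodule R R)) =
      Submodule.Quotient.mk (r i) := h1
    have h3 := (Submodule.Quotient.eq _).1 h2.symm
    rwa [smul_eq_mul, Ideal.mul_top] at h3
  obtain ⟨L, hL⟩ := IsPrecomplete.prec (I := M) (M := P) inferInstance
    (f := fun n => algebraMap R P (r n)) (by
      intro i j hij
      rw [SModEq.sub_mem, smul_eq_mul, Ideal.mul_top]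
      exact hc hij)
  refine ⟨L, ?_⟩
  apply AdicCompletion.ext
  intro n
  rw [H.theta_val, ← hr n]
  refine H.mk_eq (H.rho_spec n L) ?_
  have := hL n
  rw [SModEq.sub_mem, smul_eq_mul, Ideal.mul_top] at this
  rw [← neg_mem_iff, neg_sub]
  exact this

theorem SameJets.flat (H : SameJets m M) [IsNoetherianRing R] [IsAdicComplete M P] :
    Module.Flat R P := by
  have e : P ≃ₗ[R] AdicCompletion m R :=
    LinearEquiv.ofBijective H.theta ⟨H.theta_injective, H.theta_surjective⟩
  have : Module.Flat R (AdicCompletion m R) := inferInstance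
  exact Module.Flat.of_linearEquiv e

end

end Pool.Agent.H12.UF
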