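import Mathlib

namespace Pool.Agent.H12.UF

open MvPowerSeries

variable {σ : Type*} {R : Type*} [CommRing R]

/-- the series of order at least `j` -/
def ordIdeal (σ R : Type*) [CommRing R] (j : ℕ) : Ideal (MvPowerSeries σ R) where
  carrier := {f | ∀ d : σ →₀ ℕ, d.degree < j → coeff d f = 0}
  add_mem' := by
    intro f g hf hg d hd
    rw [map_add, hf d hd, hg d hd, add_zero]
  zero_mem' := by
    intro d _
    exact map_zero _
  smul_mem' := by
    classical
    intro c f hf d hd
    rw [smul_eq_mul, coeff_mul]
    refine Finset.sum_eq_zero fun x hx => ?_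
    rw [Finset.HasAntidiagonal.mem_antidiagonal] at hx
    rw [hf x.2, mul_zero]
    have : x.1.degree + x.2.degree = d.degree := by rw [← hx, map_add]
    omega

theorem mem_ordIdeal {j : ℕ} {f : MvPowerSeries σ R} :
    f ∈ ordIdeal σ R j ↔ ∀ d : σ →₀ ℕ, d.degree < j → coeff d f = 0 := Iff.rfl

theorem mul_mem_ordIdeal {i j : ℕ} {f g : MvPowerSeries σ R} (hf : f ∈ ordIdeal σ R i)
    (hg : g ∈ ordIdeal σ R j) : f * g ∈ ordIdeal σ R (i + j) := by
  classical
  intro d hd
  rw [coeff_mul]
  refine Finset.sum_eq_zero fun x hx => ?_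
  rw [Finset.HasAntidiagonal.mem_antidiagonal] at hx
  have h : x.1.degree + x.2.degree = d.degree := by rw [← hx, map_add]
  by_cases h1 : x.1.degree < i
  · rw [hf x.1 h1, zero_mul]
  · rw [hg x.2 (by omega), mul_zero]

open Classical in
/-- part of a series -/
noncomputable def part (c : (σ →₀ ℕ) → Option σ) (f : MvPowerSeries σ R) (s : σ) :
    MvPowerSeries σ R := fun e => if c (e + Finsupp.single s 1) = some s then
    coeff (e + Finsupp.single s 1) f else 0

open Classical in
theorem coeff_part (c : (σ →₀ ℕ) → Option σ) (f : MvPowerSeries σ R) (s : σ) (e : σ →₀ ℕ) :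
    coeff e (part c f s) = if c (e + Finsupp.single s 1) = some s then
    coeff (e + Finsupp.single s 1) f else 0 := rfl

theorem exists_decomp [Fintype σ] (f : MvPowerSeries σ R) (j : ℕ)
    (hf : f ∈ ordIdeal σ R (j + 1)) :
    ∃ g : σ → MvPowerSeries σ R, f = ∑ s, X s * g s ∧ ∀ s, g s ∈ ordIdeal σ R j := by
  classical
  have hch : ∀ d : σ →₀ ℕ, ∃ s : Option σ, (d ≠ 0 → ∃ t, s = some t ∧ d t ≠ 0) := by
    intro d
    by_cases hd : d = 0
    · exact ⟨none, fun h => absurd hd h⟩
    · obtain ⟨t, ht⟩ := Finsupp.ne_iff.1 hd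
      exact ⟨some t, fun _ => ⟨t, rfl, by simpa using ht⟩⟩
  choose c hc using hch
  refine ⟨part c f, ?_, ?_⟩
  · ext d
    rw [map_sum]
    by_cases hd : d = 0
    · subst hd
      rw [hf 0 (by simp)]
      symm
      refine Finset.sum_eq_zero fun s _ => ?_
      rw [coeff_zero_eq_constantCoeff_apply, map_mul, constantCoeff_X, zero_mul]
    · obtain ⟨t, ht, hdt⟩ := hc d hd
      have hle : Finsupp.single t 1 ≤ d := by
        rw [Finsupp.single_le_iff]; omega
      rw [Finset.sum_eq_single t]
      · rw [X, coeff_monomial_mul, if_pos hle, one_mul]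
        rw [coeff_part, tsub_add_cancel_of_le hle, if_pos ht]
      · intro s _ hs
        rw [X, coeff_monomial_mul]
        split_ifs with h
        · rw [one_mul]
          rw [coeff_part, tsub_add_cancel_of_le h, if_neg]
          rw [ht]
          intro h2
          exact hs (Option.some.inj h2).symm
        · rfl
      · intro h
        exact absurd (Finset.mem_univ t) h
  · intro s d hd
    rw [coeff_part]
    split_ifs
    · apply hf
      rw [map_add]
      simp only [Finsupp.degree_single]
      omega
    · rfl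

theorem span_pow_eq_ordIdeal [Finite σ] (j : ℕ) :
    (Ideal.span (Set.range (X : σ → MvPowerSeries σ R))) ^ j = ordIdeal σ R j := by
  classical
  cases nonempty_fintype σ
  apply le_antisymm
  · induction j with
    | zero =>
      intro f _ d hd
      omega
    | succ j ih =>
      rw [pow_succ]
      refine Ideal.mul_le.2 fun f hf g hg => ?_
      refine mul_mem_ordIdeal (ih hf) ?_
      have : Ideal.span (Set.range (X : σ → MvPowerSeries σ R)) ≤ ordIdeal σ R 1 := by
        rw [Ideal.span_le]
        rintro _ ⟨s, rfl⟩ d hd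
        have hd0 : d = 0 := by
          rw [← Finsupp.degree_eq_zero_iff]; omega
        subst hd0
        rw [coeff_zero_eq_constantCoeff_apply, constantCoeff_X]
      exact this hg
  · induction j with
    | zero =>
      intro f _
      simp
    | succ j ih =>
      intro f hf
      obtain ⟨g, hg, hgj⟩ := exists_decomp f j hf
      rw [hg]
      refine Ideal.sum_mem _ fun s _ => ?_
      rw [pow_succ']
      exact Ideal.mul_mem_mul (Ideal.subset_span ⟨s, rfl⟩) (ih (hgj s))

theorem maximalIdeal_eq [Finite σ] (k : Type*) [Field k] :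
    IsLocalRing.maximalIdeal (MvPowerSeries σ k) =
      Ideal.span (Set.range (X : σ → MvPowerSeries σ k)) := by
  have h := span_pow_eq_ordIdeal (σ := σ) (R := k) 1
  rw [pow_one] at h
  rw [h]
  ext f
  rw [IsLocalRing.mem_maximalIdeal, mem_nonunits_iff, isUnit_iff_constantCoeff, isUnit_iff_ne_zero,
    not_not, mem_ordIdeal]
  constructor
  · intro hf d hd
    have hd0 : d = 0 := by
      rw [← Finsupp.degree_eq_zero_iff]; omega
    subst hd0
    rwa [coeff_zero_eq_constantCoeff_apply]
  · intro hf
    rw [← coeff_zero_eq_constantCoeff_apply]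
    exact hf 0 (by simp)

instance isAdicComplete_maximalIdeal [Finite σ] (k : Type*) [Field k] :
    IsAdicComplete (IsLocalRing.maximalIdeal (MvPowerSeries σ k)) (MvPowerSeries σ k) := by
  rw [maximalIdeal_eq]
  infer_instance

end Pool.Agent.H12.UF
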