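import Mathlib
import Pool.Agent.H12.UF.Pow
import Pool.Agent.H12.UF.Flat

open IsLocalRing

namespace Pool.Agent.H12.UF

/-! ### completeness for the square of the maximal ideal -/

theorem isAdicComplete_sq {P : Type*} [CommRing P] (M : Ideal P) [IsAdicComplete M P] :
    IsAdicComplete (M ^ 2) P where
  haus' := by
    intro x hx
    apply IsHausdorff.haus (I := M) (M := P) inferInstance
    intro n
    have h := hx n
    rw [SModEq.zero, smul_eq_mul, Ideal.mul_top, ← pow_mul] at h
    rw [SModEq.zero, smul_eq_mul, Ideal.mul_top]
    exact Ideal.pow_le_pow_right (by omega) h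
  prec' := by
    intro f hf
    have hf' : ∀ {i j : ℕ}, i ≤ j → f i - f j ∈ M ^ (2 * i) := by
      intro i j hij
      have h := hf hij
      rwa [SModEq.sub_mem, smul_eq_mul, Ideal.mul_top, ← pow_mul] at h
    obtain ⟨L, hL⟩ := IsPrecomplete.prec (I := M) (M := P) inferInstance (f := f) (by
      intro i j hij
      rw [SModEq.sub_mem, smul_eq_mul, Ideal.mul_top]
      exact Ideal.pow_le_pow_right (by omega) (hf' hij))
    refine ⟨L, fun n => ?_⟩
    rw [SModEq.sub_mem, smul_eq_mul, Ideal.mul_top, ← pow_mul]
    have h1 := hL (2 * n)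
    rw [SModEq.sub_mem, smul_eq_mul, Ideal.mul_top] at h1
    have h2 := hf' (show n ≤ 2 * n by omega)
    have h3 := Ideal.add_mem _ h2 h1
    rwa [sub_add_sub_cancel] at h3

section

variable {k R : Type*} [Field k] [CommRing R] [Algebra k R] [IsLocalRing R] [IsNoetherianRing R]

/-- data: a coefficient field and a cotangent basis -/
structure Frame (k R : Type*) [Field k] [CommRing R] [Algebra k R] [IsLocalRing R] (n : ℕ) where
  /-- the residue as an element of the field -/
  res : R →ₐ[k] k
  res_mem : ∀ r, r - algebraMap k R (res r) ∈ maximalIdeal R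
  /-- parameters -/
  x : Fin n → R
  x_mem : ∀ i, x i ∈ maximalIdeal R
  /-- the coordinate derivations -/
  D : Fin n → R →ₗ[k] k
  D_mul : ∀ i r s, D i (r * s) = res r * D i s + res s * D i r
  D_x : ∀ i j, D i (x j) = if i = j then 1 else 0
  span : ∀ r ∈ maximalIdeal R, r - ∑ i, algebraMap k R (D i r) * x i ∈ maximalIdeal R ^ 2

omit [IsNoetherianRing R] in
theorem Frame.res_eq_zero {n : ℕ} (F : Frame k R n) {r : R} (hr : r ∈ maximalIdeal R) :
    F.res r = 0 := by
  by_contra h
  have h1 := F.res_mem r
  have h2 : algebraMap k R (F.res r) ∈ maximalIdeal R := by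
    have := Ideal.sub_mem _ hr h1
    simpa using this
  have h3 : IsUnit (algebraMap k R (F.res r)) := (isUnit_iff_ne_zero.2 h).map _
  exact (mem_maximalIdeal _).1 h2 h3

theorem exists_frame (hres : Function.Surjective (algebraMap k (ResidueField R))) :
    ∃ n : ℕ, Nonempty (Frame k R n) := by
  classical
  set m := maximalIdeal R with hm
  -- residue as element of k
  have hbij : Function.Bijective (algebraMap k (ResidueField R)) :=
    ⟨(algebraMap k (ResidueField R)).injective, hres⟩
  let ι : k ≃ₐ[k] ResidueField R := AlgEquiv.ofBijective (Algebra.ofId k (ResidueField R)) hbij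
  let res : R →ₐ[k] k := ι.symm.toAlgHom.comp (IsScalarTower.toAlgHom k R (ResidueField R))
  have hι : ∀ c : k, ι c = algebraMap k (ResidueField R) c := fun c => rfl
  have hresc : ∀ c, res (algebraMap k R c) = c := fun c => res.commutes c
  have hresι : ∀ r, algebraMap k (ResidueField R) (res r) = residue R r := by
    intro r
    rw [← hι]
    exact ι.apply_symm_apply _
  have hres_mem : ∀ r, r - algebraMap k R (res r) ∈ m := by
    intro r
    rw [hm, ← residue_eq_zero_iff, map_sub, sub_eq_zero, ← hresι]
    rw [IsScalarTower.algebraMap_apply k R (ResidueField R)]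
    rfl
  let b := Module.finBasis (ResidueField R) (CotangentSpace R)
  set n := Module.finrank (ResidueField R) (CotangentSpace R) with hn
  have hx : ∀ i, ∃ x : m, m.toCotangent x = b i := fun i => m.toCotangent_surjective (b i)
  choose x hx using hx
  have hδmem : ∀ r, r - algebraMap k R (res r) ∈ m := hres_mem
  let δ : R →+ CotangentSpace R :=
    { toFun := fun r => m.toCotangent ⟨r - algebraMap k R (res r), hδmem r⟩
      map_zero' := by
        have : (⟨(0 : R) - algebraMap k R (res 0), hδmem 0⟩ : m) = 0 := by
          apply Subtype.ext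
          simp
        rw [this, map_zero]
      map_add' := by
        intro r s
        rw [← map_add]
        congr 1
        apply Subtype.ext
        simp only [map_add, Submodule.coe_add]
        ring }
  have hδ : ∀ r, δ r = m.toCotangent ⟨r - algebraMap k R (res r), hδmem r⟩ := fun r => rfl
  have hδmul : ∀ r s, δ (r * s) = (residue R r) • δ s + (residue R s) • δ r := by
    intro r s
    have h1 : (residue R r) • δ s = m.toCotangent (r • ⟨s - algebraMap k R (res s), hδmem s⟩) := by
      rw [map_smul, ← hδ]
      rfl
    have h2 : (residue R s) • δ r = m.toCotangent (s • ⟨r - algebraMap k R (res r), hδmem r⟩) := by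
      rw [map_smul, ← hδ]
      rfl
    rw [h1, h2, ← map_add, hδ, Ideal.toCotangent_eq]
    simp only [Submodule.coe_add, Submodule.coe_smul, smul_eq_mul, map_mul]
    have : r * s - algebraMap k R (res r) * algebraMap k R (res s) -
        (r * (s - algebraMap k R (res s)) + s * (r - algebraMap k R (res r))) =
        - ((r - algebraMap k R (res r)) * (s - algebraMap k R (res s))) := by ring
    rw [this, pow_two]
    exact neg_mem (Ideal.mul_mem_mul (hδmem r) (hδmem s))
  have hδm : ∀ r (hr : r ∈ m), δ r = m.toCotangent ⟨r, hr⟩ := by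
    intro r hr
    rw [hδ]
    congr 1
    apply Subtype.ext
    have h0 : res r = 0 := by
      have h3 : algebraMap k (ResidueField R) (res r) = 0 := by
        rw [hresι]; exact (residue_eq_zero_iff r).2 hr
      exact (map_eq_zero _).1 h3
    simp [h0]
  let D : Fin n → R →ₗ[k] k := fun i =>
    { toFun := fun r => ι.symm (b.repr (δ r) i)
      map_add' := by
        intro r s
        simp
      map_smul' := by
        intro c r
        have : δ (c • r) = (algebraMap k (ResidueField R) c) • δ r := by
          have h0 : δ (algebraMap k R c) = 0 := by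
            rw [hδ]
            have : (⟨algebraMap k R c - algebraMap k R (res (algebraMap k R c)),
                hδmem (algebraMap k R c)⟩ : m) = 0 := by
              apply Subtype.ext
              simp [hresc]
            rw [this, map_zero]
          rw [Algebra.smul_def, hδmul, h0, smul_zero, add_zero]
          rfl
        rw [this, map_smul, Finsupp.smul_apply, smul_eq_mul, map_mul, RingHom.id_apply, smul_eq_mul]
        congr 1
        rw [← hι, ι.symm_apply_apply] }
  have hD : ∀ i r, D i r = ι.symm (b.repr (δ r) i) := fun i r => rfl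
  have hDι : ∀ i r, algebraMap k (ResidueField R) (D i r) = b.repr (δ r) i := by
    intro i r
    rw [hD, ← hι, ι.apply_symm_apply]
  have hιres : ∀ r, ι.symm (residue R r) = res r := fun r => rfl
  refine ⟨n, ⟨⟨res, hres_mem, fun i => (x i : R), fun i => (x i).2, D, ?_, ?_, ?_⟩⟩⟩
  · intro i r s
    rw [hD, hδmul, map_add, map_smul, map_smul, Finsupp.add_apply, Finsupp.smul_apply,
      Finsupp.smul_apply, smul_eq_mul, smul_eq_mul, map_add, map_mul, map_mul, hιres, hιres]
    rfl
  · intro i j
    rw [hD, hδm _ (x j).2]
    have : m.toCotangent ⟨(x j : R), (x j).2⟩ = b j := hx j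
    rw [this, Module.Basis.repr_self, Finsupp.single_apply]
    by_cases hij : j = i
    · rw [if_pos hij, if_pos hij.symm, map_one]
    · rw [if_neg hij, if_neg (fun h => hij h.symm), map_zero]
  · intro r hr
    have hsum : ∑ i, algebraMap k R (D i r) * (x i : R) ∈ m :=
      Ideal.sum_mem _ fun i _ => Ideal.mul_mem_left _ _ (x i).2
    have h1 : m.toCotangent ⟨r, hr⟩ = m.toCotangent ⟨_, hsum⟩ := by
      have h2 : (⟨_, hsum⟩ : m) = ∑ i, algebraMap k R (D i r) • x i := by
        apply Subtype.ext
        rw [Submodule.coe_sum]
        rfl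
      rw [h2, map_sum, ← hδm r hr]
      have h3 : δ r = ∑ i, b.repr (δ r) i • b i := (b.sum_repr _).symm
      have h4 : ∀ i, m.toCotangent (algebraMap k R (D i r) • x i) = b.repr (δ r) i • b i := by
        intro i
        rw [map_smul, hx i, ← hDι i r]
        rfl
      rw [Finset.sum_congr rfl fun i _ => h4 i]
      exact h3
    rw [Ideal.toCotangent_eq] at h1
    exact h1

end

end Pool.Agent.H12.UF
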