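import Mathlib
import Pool.Agent.H12.UF.Jets

open IsLocalRing MvPowerSeries

namespace Pool.Agent.H12.UF

/-- the ideal of the variables -/
noncomputable abbrev MI (k : Type*) [Field k] (n : ℕ) : Ideal (MvPowerSeries (Fin n) k) :=
  Ideal.span (Set.range X)

section

variable {k R : Type*} [Field k] [CommRing R] [Algebra k R] [IsLocalRing R] {n : ℕ}
  (F : Frame k R n)

/-- the linear part -/
noncomputable def Frame.lp (r : R) : MvPowerSeries (Fin n) k := ∑ i, C (F.D i r) * X i

/-- the one-jet -/
noncomputable def Frame.jet (r : R) : MvPowerSeries (Fin n) k := C (F.res r) + F.lp r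

theorem Frame.lp_mem (r : R) : F.lp r ∈ MI k n :=
  Ideal.sum_mem _ fun i _ => Ideal.mul_mem_left _ _ (Ideal.subset_span ⟨i, rfl⟩)

theorem Frame.lp_add (r s : R) : F.lp (r + s) = F.lp r + F.lp s := by
  rw [Frame.lp, Frame.lp, Frame.lp, ← Finset.sum_add_distrib]
  refine Finset.sum_congr rfl fun i _ => ?_
  rw [map_add, map_add, add_mul]

theorem Frame.lp_smul (c : k) (r : R) : F.lp (c • r) = C c * F.lp r := by
  rw [Frame.lp, Frame.lp, Finset.mul_sum]
  refine Finset.sum_congr rfl fun i _ => ?_
  rw [map_smul, smul_eq_mul, map_mul, mul_assoc]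

theorem Frame.lp_mul (r s : R) : F.lp (r * s) = C (F.res r) * F.lp s + C (F.res s) * F.lp r := by
  rw [Frame.lp, Frame.lp, Frame.lp, Finset.mul_sum, Finset.mul_sum, ← Finset.sum_add_distrib]
  refine Finset.sum_congr rfl fun i _ => ?_
  rw [F.D_mul, map_add, map_mul, map_mul]
  ring

theorem Frame.D_one (i : Fin n) : F.D i 1 = 0 := by
  have h := F.D_mul i 1 1
  rw [mul_one, map_one F.res, one_mul] at h
  have h2 : F.D i 1 + 0 = F.D i 1 + F.D i 1 := by rw [add_zero]; exact h
  exact (add_left_cancel h2).symm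

theorem Frame.lp_x (j : Fin n) : F.lp (F.x j) = X j := by
  rw [Frame.lp, Finset.sum_eq_single j]
  · rw [F.D_x, if_pos rfl, map_one, one_mul]
  · intro i _ hi
    rw [F.D_x, if_neg hi, map_zero, zero_mul]
  · intro h
    exact absurd (Finset.mem_univ j) h

theorem Frame.jet_x (j : Fin n) : F.jet (F.x j) = X j := by
  rw [Frame.jet, F.lp_x, F.res_eq_zero (F.x_mem j), map_zero, zero_add]

theorem Frame.jet_mul (r s : R) : F.jet (r * s) - F.jet r * F.jet s ∈ MI k n ^ 2 := by
  have : F.jet (r * s) - F.jet r * F.jet s = - (F.lp r * F.lp s) := by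
    rw [Frame.jet, Frame.jet, Frame.jet, F.lp_mul, map_mul, map_mul]
    ring
  rw [this, pow_two]
  exact neg_mem (Ideal.mul_mem_mul (F.lp_mem r) (F.lp_mem s))

/-- the one-jet as a homomorphism -/
noncomputable def Frame.jetHom : R →ₐ[k] MvPowerSeries (Fin n) k ⧸ (MI k n ^ 2) :=
  AlgHom.ofLinearMap
    { toFun := fun r => Ideal.Quotient.mk _ (F.jet r)
      map_add' := by
        intro r s
        rw [← map_add]
        congr 1
        rw [Frame.jet, Frame.jet, Frame.jet, F.lp_add, map_add, map_add]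
        ring
      map_smul' := by
        intro c r
        have : F.jet (c • r) = c • F.jet r := by
          rw [Frame.jet, Frame.jet, F.lp_smul, map_smul, smul_eq_mul, map_mul, smul_eq_C_mul]
          ring
        rw [this]
        rfl }
    (by
      change Ideal.Quotient.mk _ (F.jet 1) = 1
      have : F.jet 1 = 1 := by
        rw [Frame.jet, Frame.lp, map_one, map_one]
        rw [Finset.sum_eq_zero, add_zero]
        intro i _
        rw [F.D_one, map_zero, zero_mul]
      rw [this, map_one])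
    (by
      intro r s
      change Ideal.Quotient.mk _ (F.jet (r * s)) =
        Ideal.Quotient.mk _ (F.jet r) * Ideal.Quotient.mk _ (F.jet s)
      rw [← map_mul, Ideal.Quotient.mk_eq_mk_iff_sub_mem]
      exact F.jet_mul r s)

theorem Frame.exists_lift [Algebra.FormallySmooth k R] :
    ∃ f : R →ₐ[k] MvPowerSeries (Fin n) k, ∀ r, f r - F.jet r ∈ MI k n ^ 2 := by
  have : IsAdicComplete (MI k n ^ 2) (MvPowerSeries (Fin n) k) := isAdicComplete_sq _
  obtain ⟨g, hg⟩ := Algebra.FormallySmooth.exists_mkₐ_comp_eq_of_isAdicComplete F.jetHom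
  refine ⟨g, fun r => ?_⟩
  rw [← Ideal.Quotient.mk_eq_mk_iff_sub_mem]
  exact DFunLike.congr_fun hg r

/-- evaluation of polynomials at the parameters -/
noncomputable def Frame.ev : MvPolynomial (Fin n) k →ₐ[k] R := MvPolynomial.aeval F.x

variable (f : R →ₐ[k] MvPowerSeries (Fin n) k) (hf : ∀ r, f r - F.jet r ∈ MI k n ^ 2)

include hf

theorem Frame.lift_mem {r : R} (hr : r ∈ maximalIdeal R) : f r ∈ MI k n := by
  have h1 : F.jet r ∈ MI k n := by
    rw [Frame.jet, F.res_eq_zero hr, map_zero, zero_add]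
    exact F.lp_mem r
  have h2 := Ideal.pow_le_self (I := MI k n) (n := 2) (by norm_num) (hf r)
  have := Ideal.add_mem _ h2 h1
  rwa [sub_add_cancel] at this

theorem Frame.lift_mem_pow (j : ℕ) {r : R} (hr : r ∈ maximalIdeal R ^ j) : f r ∈ MI k n ^ j := by
  have h1 : Ideal.map (f : R →+* MvPowerSeries (Fin n) k) (maximalIdeal R) ≤ MI k n := by
    rw [Ideal.map_le_iff_le_comap]
    intro r hr
    exact F.lift_mem f hf hr
  have h2 : (f : R →+* MvPowerSeries (Fin n) k) r ∈
      Ideal.map (f : R →+* MvPowerSeries (Fin n) k) (maximalIdeal R ^ j) := Ideal.mem_map_of_mem _ hr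
  rw [Ideal.map_pow] at h2
  exact Ideal.pow_right_mono h1 j h2

theorem Frame.lift_x (j : Fin n) : f (F.x j) - X j ∈ MI k n ^ 2 := by
  have := hf (F.x j)
  rwa [F.jet_x] at this

omit hf in
theorem X_mem (i : Fin n) : (X i : MvPowerSeries (Fin n) k) ∈ MI k n := Ideal.subset_span ⟨i, rfl⟩

theorem Frame.approx_mem (j : ℕ) (p : MvPowerSeries (Fin n) k) (hp : p ∈ MI k n ^ j) :
    ∃ r ∈ maximalIdeal R ^ j, p - f r ∈ MI k n ^ (j + 1) := by
  have h0 : ∀ p : MvPowerSeries (Fin n) k, ∃ r : R, p - f r ∈ MI k n := by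
    intro p
    refine ⟨algebraMap k R (constantCoeff p), ?_⟩
    rw [f.commutes]
    have h := span_pow_eq_ordIdeal (σ := Fin n) (R := k) 1
    rw [pow_one] at h
    rw [MI, h, mem_ordIdeal]
    intro d hd
    have hd0 : d = 0 := by
      rw [← Finsupp.degree_eq_zero_iff]; omega
    subst hd0
    simp [MvPowerSeries.algebraMap_apply]
  have h1 : ∀ p ∈ MI k n, ∃ r ∈ maximalIdeal R, p - f r ∈ MI k n ^ 2 := by
    intro p hp
    refine Submodule.span_induction (p := fun p _ => ∃ r ∈ maximalIdeal R, p - f r ∈ MI k n ^ 2)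
      ?_ ?_ ?_ ?_ hp
    · rintro _ ⟨i, rfl⟩
      refine ⟨F.x i, F.x_mem i, ?_⟩
      rw [← neg_mem_iff, neg_sub]
      exact F.lift_x f hf i
    · exact ⟨0, Ideal.zero_mem _, by simp⟩
    · rintro a b _ _ ⟨r, hr, har⟩ ⟨s, hs, hbs⟩
      refine ⟨r + s, Ideal.add_mem _ hr hs, ?_⟩
      have : a + b - f (r + s) = (a - f r) + (b - f s) := by rw [map_add]; ring
      rw [this]
      exact Ideal.add_mem _ har hbs
    · rintro c a ha ⟨r, hr, har⟩
      obtain ⟨s, hs⟩ := h0 c
      refine ⟨s * r, Ideal.mul_mem_left _ _ hr, ?_⟩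
      have : c • a - f (s * r) = c * (a - f r) + (c - f s) * f r := by
        rw [map_mul, smul_eq_mul]; ring
      rw [this]
      refine Ideal.add_mem _ (Ideal.mul_mem_left _ _ har) ?_
      rw [pow_two]
      exact Ideal.mul_mem_mul hs (F.lift_mem f hf hr)
  induction j generalizing p with
  | zero =>
    obtain ⟨r, hr⟩ := h0 p
    exact ⟨r, by simp, by simpa using hr⟩
  | succ j ih =>
    rw [pow_succ] at hp
    refine Submodule.mul_induction_on
      (C := fun p => ∃ r ∈ maximalIdeal R ^ (j + 1), p - f r ∈ MI k n ^ (j + 1 + 1)) hp ?_ ?_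
    · intro a ha b hb
      obtain ⟨r, hr, har⟩ := ih a ha
      obtain ⟨s, hs, hbs⟩ := h1 b hb
      refine ⟨r * s, ?_, ?_⟩
      · rw [pow_succ]
        exact Ideal.mul_mem_mul hr hs
      · have : a * b - f (r * s) = (a - f r) * b + f r * (b - f s) := by
          rw [map_mul]; ring
        rw [this]
        refine Ideal.add_mem _ ?_ ?_
        · rw [pow_succ _ (j + 1)]
          exact Ideal.mul_mem_mul har hb
        · have h2 : j + 1 + 1 = j + 2 := rfl
          rw [h2, pow_add]
          exact Ideal.mul_mem_mul (F.lift_mem_pow f hf j hr) hbs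
    · rintro a b ⟨r, hr, har⟩ ⟨s, hs, hbs⟩
      refine ⟨r + s, Ideal.add_mem _ hr hs, ?_⟩
      have : a + b - f (r + s) = (a - f r) + (b - f s) := by rw [map_add]; ring
      rw [this]
      exact Ideal.add_mem _ har hbs

theorem Frame.approx (j : ℕ) (p : MvPowerSeries (Fin n) k) : ∃ r : R, p - f r ∈ MI k n ^ j := by
  induction j with
  | zero => exact ⟨0, by simp⟩
  | succ j ih =>
    obtain ⟨r, hr⟩ := ih
    obtain ⟨s, -, hs⟩ := F.approx_mem f hf j _ hr
    refine ⟨r + s, ?_⟩
    have : p - f (r + s) = p - f r - f s := by rw [map_add]; ring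
    rw [this]
    exact hs

omit hf in
theorem Frame.ev_mem (d : Fin n →₀ ℕ) :
    F.ev (MvPolynomial.monomial d 1) ∈ maximalIdeal R ^ d.degree := by
  rw [Frame.ev, MvPolynomial.aeval_monomial, map_one, one_mul, Finsupp.prod, Finsupp.degree_apply,
    ← Finset.prod_pow_eq_pow_sum]
  exact Ideal.prod_mem_prod fun i _ => Ideal.pow_mem_pow (F.x_mem i) _

theorem Frame.lift_monomial (d : Fin n →₀ ℕ) :
    f (F.ev (MvPolynomial.monomial d 1)) - monomial d 1 ∈ MI k n ^ (d.degree + 1) := by
  have hM : ∀ d : Fin n →₀ ℕ, (monomial d 1 : MvPowerSeries (Fin n) k) ∈ MI k n ^ d.degree := by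
    intro d
    rw [MI, span_pow_eq_ordIdeal, mem_ordIdeal]
    intro e he
    rw [coeff_monomial, if_neg]
    rintro rfl
    omega
  have hmul : ∀ d e : Fin n →₀ ℕ,
      f (F.ev (MvPolynomial.monomial d 1)) - monomial d 1 ∈ MI k n ^ (d.degree + 1) →
      f (F.ev (MvPolynomial.monomial e 1)) - monomial e 1 ∈ MI k n ^ (e.degree + 1) →
      f (F.ev (MvPolynomial.monomial (d + e) 1)) - monomial (d + e) 1 ∈
        MI k n ^ ((d + e).degree + 1) := by
    intro d e hd he
    have h1 : (MvPolynomial.monomial (d + e) (1 : k)) =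
      MvPolynomial.monomial d 1 * MvPolynomial.monomial e 1 := by
      rw [MvPolynomial.monomial_mul, mul_one]
    have h2 : (monomial (d + e) (1 : k)) = monomial d 1 * monomial e 1 := by
      rw [monomial_mul_monomial, mul_one]
    rw [h1, h2, map_mul, map_mul]
    set a := f (F.ev (MvPolynomial.monomial d 1))
    set b := f (F.ev (MvPolynomial.monomial e 1))
    have h3 : a * b - monomial d 1 * monomial e 1 =
      a * (b - monomial e 1) + (a - monomial d 1) * monomial e 1 := by ring
    rw [h3, map_add]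
    refine Ideal.add_mem _ ?_ ?_
    · rw [add_assoc, pow_add]
      exact Ideal.mul_mem_mul (F.lift_mem_pow f hf _ (F.ev_mem d)) he
    · rw [add_right_comm, pow_add]
      exact Ideal.mul_mem_mul hd (hM e)
  induction d using Finsupp.induction_linear with
  | zero =>
    have h1 : (MvPolynomial.monomial (0 : Fin n →₀ ℕ) (1 : k)) = 1 := rfl
    have h2 : (monomial (0 : Fin n →₀ ℕ) (1 : k)) = (1 : MvPowerSeries (Fin n) k) := rfl
    rw [h1, h2, map_one, map_one, sub_self]
    exact Ideal.zero_mem _
  | add d e hd he => exact hmul d e hd he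
  | single i a =>
    induction a with
    | zero =>
      rw [Finsupp.single_zero]
      have h1 : (MvPolynomial.monomial (0 : Fin n →₀ ℕ) (1 : k)) = 1 := rfl
      have h2 : (monomial (0 : Fin n →₀ ℕ) (1 : k)) = (1 : MvPowerSeries (Fin n) k) := rfl
      rw [h1, h2, map_one, map_one, sub_self]
      exact Ideal.zero_mem _
    | succ a ih =>
      rw [Finsupp.single_add]
      refine hmul _ _ ih ?_
      have h1 : (MvPolynomial.monomial (Finsupp.single i 1) (1 : k)) = MvPolynomial.X i := rfl
      have h2 : (monomial (Finsupp.single i 1) (1 : k)) = (X i : MvPowerSeries (Fin n) k) := rfl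
      rw [h1, h2, Frame.ev, MvPolynomial.aeval_X]
      simpa using F.lift_x f hf i

omit hf in
/-- every element of `m ^ j` is a form of degree `j` up to `m ^ (j+1)` -/
theorem Frame.form (j : ℕ) (r : R) (hr : r ∈ maximalIdeal R ^ j) :
    ∃ G : MvPolynomial (Fin n) k, G.IsHomogeneous j ∧ r - F.ev G ∈ maximalIdeal R ^ (j + 1) := by
  have h0 : ∀ r : R, r - F.ev (MvPolynomial.C (F.res r)) ∈ maximalIdeal R := by
    intro r
    rw [Frame.ev, MvPolynomial.aeval_C]
    exact F.res_mem r
  have hevm : ∀ (j : ℕ) (G : MvPolynomial (Fin n) k), G.IsHomogeneous j →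
      F.ev G ∈ maximalIdeal R ^ j := by
    intro j G hG
    rw [G.as_sum, map_sum]
    refine Ideal.sum_mem _ fun d hd => ?_
    have hdeg : d.degree = j := by
      have := hG (MvPolynomial.mem_support_iff.1 hd)
      rwa [Pi.one_def, ← Finsupp.degree_eq_weight_one] at this
    have h1 : MvPolynomial.monomial d (G.coeff d) =
      MvPolynomial.C (G.coeff d) * MvPolynomial.monomial d 1 := by
      rw [MvPolynomial.C_mul_monomial, mul_one]
    rw [h1, map_mul, ← hdeg]
    exact Ideal.mul_mem_left _ _ (F.ev_mem d)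
  have h1 : ∀ r ∈ maximalIdeal R, ∃ G : MvPolynomial (Fin n) k, G.IsHomogeneous 1 ∧
      r - F.ev G ∈ maximalIdeal R ^ 2 := by
    intro r hr
    refine ⟨∑ i, MvPolynomial.C (F.D i r) * MvPolynomial.X i, ?_, ?_⟩
    · refine MvPolynomial.IsHomogeneous.sum _ _ _ fun i _ => ?_
      have := (MvPolynomial.isHomogeneous_C (Fin n) (F.D i r)).mul
        (MvPolynomial.isHomogeneous_X k i)
      simpa using this
    · rw [map_sum]
      have h2 : ∑ i, F.ev (MvPolynomial.C (F.D i r) * MvPolynomial.X i) =
        ∑ i, algebraMap k R (F.D i r) * F.x i := by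
        refine Finset.sum_congr rfl fun i _ => ?_
        rw [map_mul, Frame.ev, MvPolynomial.aeval_C, MvPolynomial.aeval_X]
      rw [h2]
      exact F.span r hr
  induction j generalizing r with
  | zero =>
    exact ⟨MvPolynomial.C (F.res r), MvPolynomial.isHomogeneous_C _ _, by simpa using h0 r⟩
  | succ j ih =>
    rw [pow_succ] at hr
    refine Submodule.mul_induction_on
      (C := fun r => ∃ G : MvPolynomial (Fin n) k, G.IsHomogeneous (j + 1) ∧
        r - F.ev G ∈ maximalIdeal R ^ (j + 1 + 1)) hr ?_ ?_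
    · intro a ha b hb
      obtain ⟨G, hG, haG⟩ := ih a ha
      obtain ⟨H, hH, hbH⟩ := h1 b hb
      refine ⟨G * H, hG.mul hH, ?_⟩
      have : a * b - F.ev (G * H) = (a - F.ev G) * b + F.ev G * (b - F.ev H) := by
        rw [map_mul]; ring
      rw [this]
      refine Ideal.add_mem _ ?_ ?_
      · rw [pow_succ _ (j + 1)]
        exact Ideal.mul_mem_mul haG hb
      · have h2 : j + 1 + 1 = j + 2 := rfl
        rw [h2, pow_add]
        exact Ideal.mul_mem_mul (hevm j G hG) hbH
    · rintro a b ⟨G, hG, haG⟩ ⟨H, hH, hbH⟩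
      refine ⟨G + H, hG.add hH, ?_⟩
      have : a + b - F.ev (G + H) = (a - F.ev G) + (b - F.ev H) := by rw [map_add]; ring
      rw [this]
      exact Ideal.add_mem _ haG hbH

theorem Frame.lift_form (j : ℕ) (G : MvPolynomial (Fin n) k) (hG : G.IsHomogeneous j) :
    f (F.ev G) - (G : MvPowerSeries (Fin n) k) ∈ MI k n ^ (j + 1) := by
  have h1 : f (F.ev G) - (G : MvPowerSeries (Fin n) k) = ∑ d ∈ G.support,
      C (G.coeff d) * (f (F.ev (MvPolynomial.monomial d 1)) - monomial d 1) := by
    have h2 : ∀ d, MvPolynomial.monomial d (G.coeff d) =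
      MvPolynomial.C (G.coeff d) * MvPolynomial.monomial d 1 := by
      intro d
      rw [MvPolynomial.C_mul_monomial, mul_one]
    have h3 : f (F.ev G) = ∑ d ∈ G.support, C (G.coeff d) * f (F.ev (MvPolynomial.monomial d 1)) := by
      conv_lhs => rw [G.as_sum]
      rw [map_sum, map_sum]
      refine Finset.sum_congr rfl fun d _ => ?_
      rw [h2 d, map_mul, map_mul]
      congr 1
      rw [Frame.ev, MvPolynomial.aeval_C, f.commutes]
      rfl
    have h4 : (G : MvPowerSeries (Fin n) k) = ∑ d ∈ G.support, C (G.coeff d) * monomial d 1 := by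
      ext e
      rw [MvPolynomial.coeff_coe, map_sum]
      have h5 : ∀ d ∈ G.support, coeff e (C (G.coeff d) * monomial d 1) =
        if e = d then G.coeff d else 0 := by
        intro d _
        rw [coeff_C_mul, coeff_monomial]
        split_ifs <;> simp
      rw [Finset.sum_congr rfl h5, Finset.sum_ite_eq]
      split_ifs with h6
      · rfl
      · exact MvPolynomial.notMem_support_iff.1 h6
    rw [h3, h4, ← Finset.sum_sub_distrib]
    refine Finset.sum_congr rfl fun d _ => ?_
    rw [mul_sub]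
  rw [h1]
  refine Ideal.sum_mem _ fun d hd => ?_
  have hdeg : d.degree = j := by
    have := hG (MvPolynomial.mem_support_iff.1 hd)
    rwa [Pi.one_def, ← Finsupp.degree_eq_weight_one] at this
  rw [← hdeg]
  exact Ideal.mul_mem_left _ _ (F.lift_monomial f hf d)

theorem Frame.mem_of_lift_mem (j : ℕ) (r : R) (hr : f r ∈ MI k n ^ j) : r ∈ maximalIdeal R ^ j := by
  induction j with
  | zero => simp
  | succ j ih =>
    have h1 : r ∈ maximalIdeal R ^ j := ih (Ideal.pow_le_pow_right (Nat.le_succ j) hr)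
    obtain ⟨G, hG, hrG⟩ := F.form j r h1
    have h2 : (G : MvPowerSeries (Fin n) k) ∈ MI k n ^ (j + 1) := by
      have h3 := F.lift_form f hf j G hG
      have h4 := F.lift_mem_pow f hf (j + 1) hrG
      rw [map_sub] at h4
      have h5 := Ideal.sub_mem _ (Ideal.sub_mem _ hr h4) h3
      have h6 : f r - (f r - f (F.ev G)) - (f (F.ev G) - (G : MvPowerSeries (Fin n) k)) =
        (G : MvPowerSeries (Fin n) k) := by ring
      rwa [h6] at h5
    have h7 : G = 0 := by
      ext d
      rw [MvPolynomial.coeff_zero]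
      by_contra hne
      have hdeg : d.degree = j := by
        have := hG hne
        rwa [Pi.one_def, ← Finsupp.degree_eq_weight_one] at this
      rw [MI, span_pow_eq_ordIdeal, mem_ordIdeal] at h2
      have := h2 d (by omega)
      rw [MvPolynomial.coeff_coe] at this
      exact hne this
    rw [h7, map_zero, sub_zero] at hrG
    exact hrG

end

end Pool.Agent.H12.UF
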