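import Mathlib

open IsLocalRing

namespace Pool.Agent.H12.UF

open MvPowerSeries

variable {k : Type*} [Field k] {n : ℕ}

/-- the linear change of coordinates -/
noncomputable def lin (u : k) (c : Fin n → k) : Fin (n + 1) → MvPowerSeries (Fin (n + 1)) k :=
  Fin.cons (C u * X 0) (fun i => X i.succ + C (c i) * X 0)

theorem lin_hasSubst (u : k) (c : Fin n → k) : HasSubst (lin u c) := by
  apply hasSubst_of_constantCoeff_zero
  intro s
  refine Fin.cases ?_ (fun i => ?_) s
  · simp [lin]
  · simp [lin]

theorem subst_C' {a : Fin (n + 1) → MvPowerSeries (Fin (n + 1)) k} (ha : HasSubst a) (r : k) :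
    substAlgHom (R := k) ha (C r) = C r := by
  have := (substAlgHom (R := k) ha).commutes r
  simpa [MvPowerSeries.algebraMap_apply] using this

theorem lin_comp {u v : k} {c d : Fin n → k} (huv : u * v = 1) (hcd : ∀ i, d i = - c i * v)
    (s : Fin (n + 1)) : substAlgHom (R := k) (lin_hasSubst u c) (lin v d s) = X s := by
  refine Fin.cases ?_ (fun i => ?_) s
  · simp only [lin, Fin.cons_zero, map_mul, subst_C', substAlgHom_X]
    rw [← mul_assoc, ← map_mul, mul_comm v u, huv, map_one, one_mul]
  · simp only [lin, Fin.cons_succ, map_mul, map_add, subst_C', substAlgHom_X, Fin.cons_zero]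
    rw [hcd i, ← mul_assoc, ← map_mul]
    have : - c i * v * u = - c i := by rw [mul_assoc, mul_comm v u, huv, mul_one]
    rw [this, map_neg]
    ring

/-- the linear change of coordinates as an automorphism -/
noncomputable def linEquiv (u : k) (hu : u ≠ 0) (c : Fin n → k) :
    MvPowerSeries (Fin (n + 1)) k ≃ₐ[k] MvPowerSeries (Fin (n + 1)) k :=
  AlgEquiv.ofAlgHom (substAlgHom (lin_hasSubst u c))
    (substAlgHom (lin_hasSubst u⁻¹ (fun i => - c i * u⁻¹)))
    (by
      ext1 f
      have h := substAlgHom_comp_substAlgHom_apply (R := k) (lin_hasSubst u⁻¹ (fun i => - c i * u⁻¹))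
        (lin_hasSubst u c) f
      rw [AlgHom.comp_apply]
      erw [h]
      rw [substAlgHom_apply]
      have h2 : (fun s => (substAlgHom (lin_hasSubst u c)) (lin u⁻¹ (fun i => - c i * u⁻¹) s)) = X := by
        funext s
        exact lin_comp (mul_inv_cancel₀ hu) (fun i => rfl) s
      rw [h2, subst_self]
      rfl)
    (by
      ext1 f
      have h := substAlgHom_comp_substAlgHom_apply (R := k) (lin_hasSubst u c)
        (lin_hasSubst u⁻¹ (fun i => - c i * u⁻¹)) f
      rw [AlgHom.comp_apply]
      erw [h]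
      rw [substAlgHom_apply]
      have h2 : (fun s => (substAlgHom (lin_hasSubst u⁻¹ (fun i => - c i * u⁻¹))) (lin u c s)) = X := by
        funext s
        refine lin_comp (inv_mul_cancel₀ hu) (fun i => ?_) s
        field_simp
      rw [h2, subst_self]
      rfl)

theorem linEquiv_apply (u : k) (hu : u ≠ 0) (c : Fin n → k) (f : MvPowerSeries (Fin (n + 1)) k) :
    linEquiv u hu c f = subst (lin u c) f := by
  change substAlgHom (lin_hasSubst u c) f = _
  rw [substAlgHom_apply]

/-- restriction to the first coordinate axis -/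
noncomputable def axis : MvPowerSeries (Fin (n + 1)) k →+* PowerSeries k :=
  (PowerSeries.map (constantCoeff (σ := Fin n) (R := k))).comp
    (finSuccEquiv k n).toRingEquiv.toRingHom

theorem coeff_axis (f : MvPowerSeries (Fin (n + 1)) k) (N : ℕ) :
    PowerSeries.coeff N (axis f) = coeff (Finsupp.cons N 0) f := by
  simp only [axis, RingHom.comp_apply, PowerSeries.coeff_map]
  rw [← coeff_zero_eq_constantCoeff_apply]
  exact coeff_coeff_finSuccEquiv f

theorem axis_lin (u : k) (c : Fin n → k) (s : Fin (n + 1)) :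
    axis (lin u c s) = PowerSeries.C ((Fin.cons u c : Fin (n + 1) → k) s) * PowerSeries.X := by
  refine Fin.cases ?_ (fun i => ?_) s
  · simp [lin, axis]
  · simp [lin, axis]

theorem axis_prod (u : k) (c : Fin n → k) (d : Fin (n + 1) →₀ ℕ) :
    axis (d.prod fun s e => lin u c s ^ e) =
      PowerSeries.C (d.prod fun s e => (Fin.cons u c : Fin (n + 1) → k) s ^ e) *
        PowerSeries.X ^ d.degree := by
  rw [Finsupp.prod, Finsupp.prod, map_prod, map_prod, Finsupp.degree_apply]
  rw [← Finset.prod_pow_eq_pow_sum, ← Finset.prod_mul_distrib]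
  refine Finset.prod_congr rfl fun s _ => ?_
  rw [map_pow, axis_lin, mul_pow, map_pow]

theorem coeff_axis_lin (f : MvPowerSeries (Fin (n + 1)) k) (u : k) (c : Fin n → k) (N : ℕ) :
    PowerSeries.coeff N (axis (subst (lin u c) f)) =
      ∑ d ∈ Finset.finsuppAntidiag Finset.univ N,
        coeff d f * d.prod fun s e => (Fin.cons u c : Fin (n + 1) → k) s ^ e := by
  rw [coeff_axis, coeff_subst (lin_hasSubst u c), ]
  rw [finsum_eq_sum_of_support_subset (s := Finset.finsuppAntidiag Finset.univ N)]
  · refine Finset.sum_congr rfl fun d hd => ?_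
    rw [← coeff_axis, axis_prod, smul_eq_mul]
    congr 1
    have : d.degree = N := by
      rw [Finset.mem_finsuppAntidiag] at hd
      rw [← hd.1, Finsupp.degree_eq_sum]
    rw [this, PowerSeries.coeff_C_mul, PowerSeries.coeff_X_pow_self, mul_one]
  · intro d hd
    rw [Function.mem_support] at hd
    rw [Finset.mem_coe, Finset.mem_finsuppAntidiag]
    refine ⟨?_, by simp⟩
    by_contra hne
    apply hd
    rw [← coeff_axis, axis_prod, PowerSeries.coeff_C_mul, PowerSeries.coeff_X_pow, if_neg, mul_zero,
      smul_zero]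
    intro h
    apply hne
    rw [h, Finsupp.degree_eq_sum]

theorem exists_lin [Infinite k] (f : MvPowerSeries (Fin (n + 1)) k) (hf : f ≠ 0) :
    ∃ φ : MvPowerSeries (Fin (n + 1)) k ≃ₐ[k] MvPowerSeries (Fin (n + 1)) k, axis (φ f) ≠ 0 := by
  classical
  obtain ⟨d0, hd0⟩ : ∃ d, coeff d f ≠ 0 := by
    by_contra h
    push Not at h
    exact hf (MvPowerSeries.ext (by simpa using h))
  set N := d0.degree with hN
  let F : MvPolynomial (Fin (n + 1)) k :=
    ∑ d ∈ Finset.finsuppAntidiag Finset.univ N, MvPolynomial.monomial d (coeff d f)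
  have hF : F ≠ 0 := by
    intro h
    have : MvPolynomial.coeff d0 F = coeff d0 f := by
      rw [MvPolynomial.coeff_sum]
      simp only [MvPolynomial.coeff_monomial]
      rw [Finset.sum_ite_eq_of_mem']
      rw [Finset.mem_finsuppAntidiag]
      refine ⟨?_, by simp⟩
      rw [hN, Finsupp.degree_eq_sum]
    rw [h, MvPolynomial.coeff_zero] at this
    exact hd0 this.symm
  have hFX : F * MvPolynomial.X 0 ≠ 0 := mul_ne_zero hF (MvPolynomial.X_ne_zero 0)
  obtain ⟨c, hc⟩ : ∃ c : Fin (n + 1) → k, MvPolynomial.eval c (F * MvPolynomial.X 0) ≠ 0 := by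
    by_contra h
    push Not at h
    exact hFX (MvPolynomial.funext (by simpa using h))
  rw [map_mul, MvPolynomial.eval_X] at hc
  have hc0 : c 0 ≠ 0 := right_ne_zero_of_mul hc
  have hcF : MvPolynomial.eval c F ≠ 0 := left_ne_zero_of_mul hc
  refine ⟨linEquiv (c 0) hc0 (fun i => c i.succ), ?_⟩
  intro h
  have h1 := congrArg (PowerSeries.coeff N) h
  rw [linEquiv_apply, coeff_axis_lin, map_zero] at h1
  apply hcF
  rw [← h1, map_sum]
  refine Finset.sum_congr rfl fun d _ => ?_
  rw [MvPolynomial.eval_monomial]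
  congr 1
  refine Finsupp.prod_congr fun s _ => ?_
  congr 1
  refine Fin.cases ?_ (fun i => ?_) s
  · simp
  · simp

end Pool.Agent.H12.UF
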