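import Mathlib

open IsLocalRing

namespace Pool.Agent.H12.UF

open Polynomial PowerSeries

/-- A prime factor of a distinguished polynomial is prime in the power series ring. -/
theorem prime_coe_of_dvd {A : Type*} [CommRing A] [IsDomain A] [IsLocalRing A]
    [IsAdicComplete (maximalIdeal A) A] {f p : A[X]} (hf : f.IsDistinguishedAt (maximalIdeal A))
    (hp : Prime p) (hd : p ∣ f) : Prime (p : A⟦X⟧) := by
  obtain ⟨q, hq⟩ := hd
  -- leading coefficient of p is a unit
  have hlc : IsUnit p.leadingCoeff := by
    have h1 : p.leadingCoeff * q.leadingCoeff = 1 := by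
      rw [← Polynomial.leadingCoeff_mul, ← hq]; exact hf.monic
    exact IsUnit.of_mul_eq_one _ h1
  obtain ⟨u, hu⟩ := hlc
  set p' : A[X] := Polynomial.C (↑u⁻¹ : A) * p with hp'
  have hmon : p'.Monic := by
    rw [Polynomial.Monic, hp', Polynomial.leadingCoeff_mul, Polynomial.leadingCoeff_C, ← hu]
    simp
  have hass : Associated p p' := by
    refine ⟨Units.map (Polynomial.C : A →+* A[X]).toMonoidHom u⁻¹, ?_⟩
    simp [hp', mul_comm]
  have hp'p : Prime p' := hass.prime hp
  have hp'd : p' ∣ f := by
    rw [← hass.dvd_iff_dvd_left]; exact ⟨q, hq⟩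
  -- p' is distinguished
  have hdist : p'.IsDistinguishedAt (maximalIdeal A) := by
    refine ⟨⟨?_⟩, hmon⟩
    intro n hn
    obtain ⟨r, hr⟩ := hp'd
    have h2 : (p'.map (residue A)) * (r.map (residue A)) = Polynomial.X ^ f.natDegree := by
      rw [← Polynomial.map_mul, ← hr]
      exact hf.map_eq_X_pow
    have h3 : p'.map (residue A) ∣ (Polynomial.X : (ResidueField A)[X]) ^ f.natDegree := ⟨_, h2.symm⟩
    rw [dvd_prime_pow Polynomial.prime_X] at h3
    obtain ⟨i, -, hi⟩ := h3
    have h4 : p'.map (residue A) = Polynomial.X ^ i :=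
      Polynomial.eq_of_monic_of_associated (hmon.map _) (Polynomial.monic_X_pow i) hi
    have h5 : i = p'.natDegree := by
      have := congrArg Polynomial.natDegree h4
      rw [hmon.natDegree_map, Polynomial.natDegree_X_pow] at this
      exact this.symm
    have h6 : residue A (p'.coeff n) = 0 := by
      rw [← Polynomial.coeff_map, h4, Polynomial.coeff_X_pow, if_neg]
      omega
    exact (residue_eq_zero_iff _).1 h6
  have e := hdist.algEquivQuotient
  have hne : (p' : A⟦X⟧) ≠ 0 := by
    intro h
    apply hp'p.ne_zero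
    exact_mod_cast h
  have hdom : IsDomain (A[X] ⧸ Ideal.span {p'}) := by
    rw [Ideal.Quotient.isDomain_iff_prime, Ideal.span_singleton_prime hp'p.ne_zero]
    exact hp'p
  have hdom2 : IsDomain (A⟦X⟧ ⧸ Ideal.span {(p' : A⟦X⟧)}) :=
    e.symm.toRingEquiv.toMulEquiv.isDomain _
  have hpr : Prime (p' : A⟦X⟧) := by
    rw [Ideal.Quotient.isDomain_iff_prime, Ideal.span_singleton_prime hne] at hdom2
    exact hdom2
  have hass2 : Associated (p' : A⟦X⟧) (p : A⟦X⟧) := by
    have := hass.symm.map (Polynomial.coeToPowerSeries.ringHom (R := A))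
    simpa using this
  exact hass2.prime hpr

/-- factorisation into primes over a complete local UFD -/
theorem exists_prime_factors_of_map_ne_zero {A : Type*} [CommRing A] [IsDomain A] [IsLocalRing A]
    [UniqueFactorizationMonoid A] [IsAdicComplete (maximalIdeal A) A] (g : A⟦X⟧)
    (hg : g.map (residue A) ≠ 0) :
    ∃ s : Multiset A⟦X⟧, (∀ b ∈ s, Prime b) ∧ Associated s.prod g := by
  obtain ⟨f, h, H⟩ := g.exists_isWeierstrassFactorization hg
  have hf0 : f ≠ 0 := H.isDistinguishedAt.monic.ne_zero
  obtain ⟨s, hs, hsf⟩ := UniqueFactorizationMonoid.exists_prime_factors f hf0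
  refine ⟨s.map (Polynomial.coeToPowerSeries.ringHom (R := A)), ?_, ?_⟩
  · intro b hb
    obtain ⟨p, hp, rfl⟩ := Multiset.mem_map.1 hb
    have hd : p ∣ f := (Multiset.dvd_prod hp).trans hsf.dvd
    simpa using prime_coe_of_dvd H.isDistinguishedAt (hs p hp) hd
  · have h1 : Associated (s.map (Polynomial.coeToPowerSeries.ringHom (R := A))).prod (f : A⟦X⟧) := by
      have := hsf.map (Polynomial.coeToPowerSeries.ringHom (R := A))
      rw [map_multiset_prod] at this
      simpa using this
    have h2 : Associated (f : A⟦X⟧) g := by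
      rw [H.eq_mul]
      exact associated_mul_unit_right _ _ H.isUnit
    exact h1.trans h2

end Pool.Agent.H12.UF
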