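import Mathlib
import Pool.Agent.H12.UF.Weier
import Pool.Agent.H12.UF.Lin
import Pool.Agent.H12.UF.Pow

open IsLocalRing

namespace Pool.Agent.H12.UF

open MvPowerSeries

instance isDomain_mvps {σ : Type*} {k : Type*} [Field k] : IsDomain (MvPowerSeries σ k) :=
  NoZeroDivisors.to_isDomain _

theorem map_residue_ne_zero {k : Type*} [Field k] {n : ℕ} (f : MvPowerSeries (Fin (n + 1)) k)
    (hf : axis f ≠ 0) :
    (finSuccEquiv k n f).map (residue (MvPowerSeries (Fin n) k)) ≠ 0 := by
  intro h
  apply hf
  ext N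
  have h1 := congrArg (PowerSeries.coeff N) h
  rw [PowerSeries.coeff_map, map_zero, residue_eq_zero_iff, mem_maximalIdeal, mem_nonunits_iff,
    isUnit_iff_constantCoeff, isUnit_iff_ne_zero, not_not] at h1
  rw [coeff_axis, map_zero, ← coeff_coeff_finSuccEquiv, coeff_zero_eq_constantCoeff_apply]
  exact h1

theorem ufd_fin {k : Type*} [Field k] [Infinite k] (n : ℕ) :
    UniqueFactorizationMonoid (MvPowerSeries (Fin n) k) := by
  induction n with
  | zero =>
    exact (isEmptyEquiv (Fin 0) k).symm.toRingEquiv.toMulEquiv.uniqueFactorizationMonoid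
      inferInstance
  | succ n ih =>
    apply UniqueFactorizationMonoid.of_exists_prime_factors
    intro f hf
    obtain ⟨φ, hφ⟩ := exists_lin f hf
    obtain ⟨s, hs, hsf⟩ := exists_prime_factors_of_map_ne_zero (finSuccEquiv k n (φ f))
      (map_residue_ne_zero _ hφ)
    let e : MvPowerSeries (Fin (n + 1)) k ≃ₐ[k] PowerSeries (MvPowerSeries (Fin n) k) :=
      φ.trans (finSuccEquiv k n)
    have he : finSuccEquiv k n (φ f) = e f := rfl
    rw [he] at hsf
    refine ⟨s.map e.symm, ?_, ?_⟩
    · intro b hb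
      obtain ⟨p, hp, rfl⟩ := Multiset.mem_map.1 hb
      exact (MulEquiv.prime_iff e.symm.toMulEquiv).2 (hs p hp)
    · have h1 := hsf.map e.symm
      rw [map_multiset_prod, AlgEquiv.symm_apply_apply] at h1
      exact h1

theorem ufd {σ : Type*} [Finite σ] {k : Type*} [Field k] [Infinite k] :
    UniqueFactorizationMonoid (MvPowerSeries σ k) := by
  cases nonempty_fintype σ
  have := ufd_fin (k := k) (Fintype.card σ)
  exact (renameEquiv k (Fintype.equivFin σ).symm).toRingEquiv.toMulEquiv.uniqueFactorizationMonoid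
    inferInstance

end Pool.Agent.H12.UF
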