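import Mathlib
import Pool.Agent.H12.UF.Ufd
import Pool.Agent.H12.UF.Descent
import Pool.Agent.H12.UF.Jets2

open IsLocalRing

namespace Pool.Agent.H12.UF

/-- A Noetherian local ring which is formally smooth over an infinite field equal to its
residue field is a unique factorisation domain. -/
theorem ufd_of_formallySmooth {k R : Type*} [Field k] [Infinite k] [CommRing R] [Algebra k R]
    [IsLocalRing R] [IsNoetherianRing R] [Algebra.FormallySmooth k R]
    (hres : Function.Surjective (algebraMap k (ResidueField R))) :
    IsDomain R ∧ UniqueFactorizationMonoid R := by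
  obtain ⟨n, ⟨F⟩⟩ := exists_frame (k := k) (R := R) hres
  obtain ⟨f, hf⟩ := F.exists_lift
  letI : Algebra R (MvPowerSeries (Fin n) k) := f.toRingHom.toAlgebra
  have H : SameJets (maximalIdeal R) (MI k n) :=
    ⟨fun j p => F.approx f hf j p, fun j r =>
      ⟨fun h => F.mem_of_lift_mem f hf j r h, fun h => F.lift_mem_pow f hf j h⟩⟩
  have hflat : Module.Flat R (MvPowerSeries (Fin n) k) := H.flat
  have hloc : IsLocalHom (algebraMap R (MvPowerSeries (Fin n) k)) := by
    refine ⟨fun r hr => ?_⟩
    by_contra h
    have h1 : r ∈ maximalIdeal R := (mem_maximalIdeal _).2 h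
    have h2 : f r ∈ MI k n := F.lift_mem f hf h1
    rw [MI, ← maximalIdeal_eq] at h2
    exact (mem_maximalIdeal _).1 h2 hr
  have hff : Module.FaithfullyFlat R (MvPowerSeries (Fin n) k) :=
    Module.FaithfullyFlat.of_flat_of_isLocalHom
  have := ufd (σ := Fin n) (k := k)
  exact ufd_descent (P := MvPowerSeries (Fin n) k)

/-- The local rings of a smooth algebra over an algebraically closed field at maximal ideals are
unique factorisation domains. -/
theorem ufd_of_smooth {k A : Type*} [Field k] [IsAlgClosed k] [CommRing A] [Algebra k A]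
    [Algebra.FiniteType k A] [Algebra.FormallySmooth k A] (m : Ideal A) [m.IsMaximal] :
    IsDomain (Localization.AtPrime m) ∧ UniqueFactorizationMonoid (Localization.AtPrime m) := by
  have hinf : Infinite k := IsAlgClosed.instInfinite
  have hnoeth : IsNoetherianRing A := Algebra.FiniteType.isNoetherianRing k A
  have hnoeth2 : IsNoetherianRing (Localization.AtPrime m) :=
    IsLocalization.isNoetherianRing m.primeCompl _ hnoeth
  have hsm : Algebra.FormallySmooth A (Localization.AtPrime m) :=
    Algebra.FormallySmooth.of_isLocalization m.primeCompl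
  have hsm2 : Algebra.FormallySmooth k (Localization.AtPrime m) :=
    Algebra.FormallySmooth.comp k A (Localization.AtPrime m)
  apply ufd_of_formallySmooth (k := k)
  letI : Field (A ⧸ m) := Ideal.Quotient.field m
  have hft : Algebra.FiniteType k (A ⧸ m) := inferInstance
  have hfin : Module.Finite k (A ⧸ m) := finite_of_finite_type_of_isJacobsonRing k (A ⧸ m)
  have h1 : Function.Bijective (algebraMap k (A ⧸ m)) :=
    IsAlgClosed.algebraMap_bijective_of_isIntegral
  have h2 := m.bijective_algebraMap_quotient_residueField
  intro y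
  obtain ⟨z, hz⟩ := h2.2 y
  obtain ⟨c, hc⟩ := h1.2 z
  refine ⟨c, ?_⟩
  rw [← hz, ← hc]
  exact (IsScalarTower.algebraMap_apply k (A ⧸ m) m.ResidueField c)

end Pool.Agent.H12.UF
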