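import Mathlib
import Pool.Agent.H12.UF.Main

open IsLocalRing

namespace Pool.Agent.H12.UF

/-- In a noetherian domain a nonzero element lies in only finitely many primes of height one. -/
theorem finite_heightOne_mem {A : Type*} [CommRing A] [IsDomain A] [IsNoetherianRing A] {f : A}
    (hf : f ≠ 0) : {p : Ideal A | p.IsPrime ∧ p.height = 1 ∧ f ∈ p}.Finite := by
  refine (Ideal.finite_minimalPrimes_of_isNoetherianRing A (Ideal.span {f})).subset ?_
  rintro p ⟨hp, h1, hfp⟩
  have : p.FiniteHeight := by
    rw [p.finiteHeight_iff]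
    right
    rw [h1]
    exact ENat.one_ne_top
  refine Ideal.mem_minimalPrimes_of_height_le ?_ ?_
  · rw [Ideal.span_singleton_le_iff_mem]; exact hfp
  · rw [h1]
    exact Ideal.one_le_height_span_singleton_of_mem_nonZeroDivisors
      (mem_nonZeroDivisors_of_ne_zero hf)

/-- Primes of height one of a unique factorisation domain are generated by a prime element. -/
theorem heightOne_principal {R : Type*} [CommRing R] [IsDomain R] [UniqueFactorizationMonoid R]
    (p : Ideal R) [hp : p.IsPrime] (h : p.height = 1) : ∃ π : R, Prime π ∧ p = Ideal.span {π} := by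
  obtain ⟨π, hπ, hprime⟩ := hp.exists_mem_prime_of_ne_bot (Ideal.ne_bot_of_height_eq_one h)
  exact ⟨π, hprime, Ideal.eq_span_singleton_of_height_eq_one h hπ hprime⟩

/-- The ideal generated by a prime element of a noetherian domain has height one. -/
theorem height_span_prime {R : Type*} [CommRing R] [IsDomain R] [IsNoetherianRing R] {π : R}
    (hπ : Prime π) : (Ideal.span {π}).height = 1 := by
  apply le_antisymm
  · have hpr : (Ideal.span {π}).IsPrime := (Ideal.span_singleton_prime hπ.ne_zero).2 hπ
    refine Ideal.height_le_one_of_isPrincipal_of_mem_minimalPrimes (Ideal.span {π}) _ ?_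
    rw [Ideal.minimalPrimes_eq_subsingleton_self]
    rfl
  · exact Ideal.one_le_height_span_singleton_of_mem_nonZeroDivisors
      (mem_nonZeroDivisors_of_ne_zero hπ.ne_zero)

section

variable (k : Type*) {A : Type*} [Field k] [IsAlgClosed k] [CommRing A] [Algebra k A]
    [Algebra.FiniteType k A] [Algebra.FormallySmooth k A]

include k

/-- A smooth domain is integrally closed. -/
theorem isIntegrallyClosed_of_smooth [IsDomain A] : IsIntegrallyClosed A := by
  apply IsIntegrallyClosed.of_localization_maximal
  intro m _ hm
  have := ufd_of_smooth (k := k) m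
  have h1 := this.1
  have h2 := this.2
  infer_instance

/-- The local ring of a smooth domain at a prime of height one is a discrete valuation ring. -/
theorem dvr_of_smooth [IsDomain A] (p : Ideal A) [p.IsPrime] (h : p.height = 1) :
    IsDiscreteValuationRing (Localization.AtPrime p) := by
  have hnoeth : IsNoetherianRing A := Algebra.FiniteType.isNoetherianRing k A
  have hnoeth2 : IsNoetherianRing (Localization.AtPrime p) :=
    IsLocalization.isNoetherianRing p.primeCompl _ hnoeth
  have hdom : IsDomain (Localization.AtPrime p) :=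
    IsLocalization.isDomain_localization p.primeCompl_le_nonZeroDivisors
  have hdim : ringKrullDim (Localization.AtPrime p) = 1 := by
    rw [IsLocalization.AtPrime.ringKrullDim_eq_height p, h]
    rfl
  have hmh : (maximalIdeal (Localization.AtPrime p)).height = 1 := by
    have := IsLocalRing.maximalIdeal_height_eq_ringKrullDim (R := Localization.AtPrime p)
    rw [hdim] at this
    exact_mod_cast this
  have hmne : maximalIdeal (Localization.AtPrime p) ≠ ⊥ := Ideal.ne_bot_of_height_eq_one hmh
  have hnf : ¬ IsField (Localization.AtPrime p) := by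
    intro hF
    exact hmne (IsLocalRing.isField_iff_maximalIdeal_eq.1 hF)
  have hic : IsIntegrallyClosed A := isIntegrallyClosed_of_smooth k
  have hic2 : IsIntegrallyClosed (Localization.AtPrime p) :=
    isIntegrallyClosed_of_isLocalization _ p.primeCompl p.primeCompl_le_nonZeroDivisors
  have htf := (IsDiscreteValuationRing.TFAE (Localization.AtPrime p) hnf).out 0 3
  rw [htf]
  refine ⟨hic2, maximalIdeal (Localization.AtPrime p), ⟨hmne, inferInstance⟩, ?_⟩
  rintro q ⟨hq, hqp⟩
  by_contra hne
  have hlt : q < maximalIdeal (Localization.AtPrime p) :=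
    lt_of_le_of_ne (IsLocalRing.le_maximalIdeal hqp.ne_top) hne
  have h3 := Ideal.height_add_one_le_of_lt_of_isPrime hlt
  rw [hmh] at h3
  have h4 : q.height = 0 := by
    by_contra h0
    have : 1 ≤ q.height := Order.one_le_iff_ne_zero.2 h0
    have h5 : (1 : ℕ∞) + 1 ≤ 1 := le_trans (by gcongr) h3
    norm_num at h5
  exact hq (Ideal.height_eq_zero_iff_eq_bot.1 h4)

/-- Prime divisors of a smooth domain are locally principal. -/
theorem locally_principal [IsDomain A] (m : Ideal A) [m.IsMaximal] (p : Ideal A) [p.IsPrime]
    (hpm : p ≤ m) (h : p.height = 1) :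
    ∃ π ∈ p, ∀ a ∈ p, ∃ s ∉ m, ∃ c : A, s * a = c * π := by
  have hu := ufd_of_smooth (k := k) m
  have h1 := hu.1
  have h2 := hu.2
  have hdisj : Disjoint (m.primeCompl : Set A) (p : Set A) := by
    rw [Set.disjoint_left]
    intro a ha hap
    exact ha (hpm hap)
  set P := p.map (algebraMap A (Localization.AtPrime m)) with hP
  have hPp : P.IsPrime := IsLocalization.isPrime_of_isPrime_disjoint m.primeCompl _ p ‹_› hdisj
  have hPh : P.height = 1 := by
    rw [hP, IsLocalization.height_map_of_disjoint m.primeCompl p hdisj, h]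
  obtain ⟨ϖ, -, hϖ⟩ := heightOne_principal P hPh
  obtain ⟨π, s, hπs⟩ := IsLocalization.exists_mk'_eq m.primeCompl ϖ
  have hinj : Function.Injective (algebraMap A (Localization.AtPrime m)) :=
    IsLocalization.injective _ m.primeCompl_le_nonZeroDivisors
  have hϖs : ϖ * algebraMap A _ (s : A) = algebraMap A _ π := by
    rw [← hπs, IsLocalization.mk'_spec]
  have hcomap : P.comap (algebraMap A (Localization.AtPrime m)) = p :=
    IsLocalization.under_map_of_isPrime_disjoint m.primeCompl _ ‹_› hdisj
  have hπp : π ∈ p := by
    rw [← hcomap, Ideal.mem_comap, ← hϖs, hϖ]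
    exact Ideal.mul_mem_right _ _ (Ideal.mem_span_singleton_self ϖ)
  refine ⟨π, hπp, fun a ha => ?_⟩
  have ha2 : algebraMap A (Localization.AtPrime m) a ∈ P := Ideal.mem_map_of_mem _ ha
  rw [hϖ, Ideal.mem_span_singleton] at ha2
  obtain ⟨y, hy⟩ := ha2
  obtain ⟨c, t, hct⟩ := IsLocalization.exists_mk'_eq m.primeCompl y
  have hyt : y * algebraMap A _ (t : A) = algebraMap A _ c := by
    rw [← hct, IsLocalization.mk'_spec]
  refine ⟨s * t, ?_, c, ?_⟩
  · exact (s * t).2
  · apply hinj
    rw [map_mul, map_mul, map_mul, hy, ← hϖs, ← hyt]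
    ring

/-- A rational function without poles along prime divisors is regular. -/
theorem mem_range_of_heightOne [IsDomain A] {K : Type*} [Field K] [Algebra A K]
    [IsFractionRing A K] (x : K)
    (h : ∀ p : Ideal A, p.IsPrime → p.height = 1 →
      ∃ a s : A, s ∉ p ∧ x * algebraMap A K s = algebraMap A K a) :
    x ∈ (algebraMap A K).range := by
  classical
  have hnoeth : IsNoetherianRing A := Algebra.FiniteType.isNoetherianRing k A
  let I : Ideal A :=
    { carrier := {s | x * algebraMap A K s ∈ (algebraMap A K).range}
      add_mem' := by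
        intro a b ha hb
        change x * algebraMap A K (a + b) ∈ (algebraMap A K).range
        rw [map_add, mul_add]
        exact add_mem ha hb
      zero_mem' := by
        change x * algebraMap A K 0 ∈ (algebraMap A K).range
        rw [map_zero, mul_zero]
        exact zero_mem _
      smul_mem' := by
        intro c a ha
        change x * algebraMap A K (c * a) ∈ (algebraMap A K).range
        rw [map_mul, mul_left_comm]
        exact mul_mem ⟨c, rfl⟩ ha }
  by_cases hI : I = ⊤
  · have : (1 : A) ∈ I := by rw [hI]; trivial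
    change x * algebraMap A K 1 ∈ (algebraMap A K).range at this
    rwa [map_one, mul_one] at this
  exfalso
  obtain ⟨m, hm, hIm⟩ := Ideal.exists_le_maximal I hI
  have hu := ufd_of_smooth (k := k) m
  have hd1 := hu.1
  have hd2 := hu.2
  have hnoeth2 : IsNoetherianRing (Localization.AtPrime m) :=
    IsLocalization.isNoetherianRing m.primeCompl _ hnoeth
  obtain ⟨a, b, hab⟩ := IsLocalization.exists_mk'_eq (nonZeroDivisors A) x
  have hb0 : (b : A) ≠ 0 := nonZeroDivisors.ne_zero b.2
  have hxb : x * algebraMap A K (b : A) = algebraMap A K a := by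
    rw [← hab, IsLocalization.mk'_spec]
  have hinj : Function.Injective (algebraMap A (Localization.AtPrime m)) :=
    IsLocalization.injective _ m.primeCompl_le_nonZeroDivisors
  have hinjK : Function.Injective (algebraMap A K) := IsFractionRing.injective A K
  set φ := algebraMap A (Localization.AtPrime m) with hφ
  have hb1 : φ (b : A) ≠ 0 := by
    intro h0
    exact hb0 (hinj (by rw [h0, map_zero]))
  obtain ⟨β, α, c, hrel, hβ, hα⟩ := UniqueFactorizationMonoid.exists_reduced_factors
    (φ (b : A)) hb1 (φ a)
  have hc : c ≠ 0 := by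
    rintro rfl
    exact hb1 (by rw [← hβ, zero_mul])
  have hβ0 : β ≠ 0 := by
    rintro rfl
    exact hb1 (by rw [← hβ, mul_zero])
  -- if s with x s = a' then a' β = s α
  have key : ∀ a' s' : A, x * algebraMap A K s' = algebraMap A K a' → φ a' * β = φ s' * α := by
    intro a' s' hs
    have h1 : a' * (b : A) = s' * a := by
      apply hinjK
      rw [map_mul, map_mul, ← hs, ← hxb]
      ring
    have h2 : φ a' * φ (b : A) = φ s' * φ a := by rw [← map_mul, ← map_mul, h1]
    rw [← hβ, ← hα] at h2
    apply mul_left_cancel₀ hc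
    linear_combination h2
  by_cases hunit : IsUnit β
  · -- x lies in the local ring at m
    obtain ⟨v, hv⟩ := hunit
    obtain ⟨a', s', has⟩ := IsLocalization.exists_mk'_eq m.primeCompl (α * ↑v⁻¹ : Localization.AtPrime m)
    have h3 : (α * ↑v⁻¹) * φ (s' : A) = φ a' := by
      rw [← has, IsLocalization.mk'_spec]
    have h4 : φ (s' * a) = φ (a' * b) := by
      rw [map_mul, map_mul, ← hα, ← hβ, ← h3, ← hv]
      have : (v : Localization.AtPrime m) * ↑v⁻¹ = 1 := Units.mul_inv v
      linear_combination (-(φ (s' : A) * c * α)) * this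
    have h5 : (s' : A) * a = a' * b := hinj h4
    have h6 : (s' : A) ∈ I := by
      change x * algebraMap A K (s' : A) ∈ (algebraMap A K).range
      refine ⟨a', ?_⟩
      have hbK : algebraMap A K (b : A) ≠ 0 := by
        intro h0
        exact hb0 (hinjK (by rw [h0, map_zero]))
      apply mul_right_cancel₀ hbK
      rw [← map_mul, ← h5, map_mul, ← hxb]
      ring
    exact s'.2 (hIm h6)
  · obtain ⟨ϖ, hϖ, hϖβ⟩ := WfDvdMonoid.exists_irreducible_factor hunit hβ0
    have hϖp : Prime ϖ := UniqueFactorizationMonoid.irreducible_iff_prime.1 hϖ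
    set P : Ideal (Localization.AtPrime m) := Ideal.span {ϖ} with hP
    have hPp : P.IsPrime := (Ideal.span_singleton_prime hϖp.ne_zero).2 hϖp
    have hPh : P.height = 1 := height_span_prime hϖp
    have hph : (P.under A).height = 1 := by
      rw [IsLocalization.height_under m.primeCompl P, hPh]
    obtain ⟨a', s', hs', hxs'⟩ := h (P.under A) inferInstance hph
    have h7 := key a' s' hxs'
    have h8 : ϖ ∣ φ s' * α := by
      rw [← h7]
      exact Dvd.dvd.mul_left hϖβ _
    rcases hϖp.dvd_or_dvd h8 with h9 | h9
    · apply hs'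
      rw [Ideal.under_def, Ideal.mem_comap, hP, Ideal.mem_span_singleton]
      exact h9
    · exact hϖp.not_isUnit (hrel hϖβ h9)

end

end Pool.Agent.H12.UF
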