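import Mathlib
import Pool.Agent.H12.UF.Extra

open IsLocalRing

namespace Pool.Agent.H12.UF

section

variable (k : Type*) {A : Type*} [Field k] [IsAlgClosed k] [CommRing A] [Algebra k A]
    [Algebra.FiniteType k A] [Algebra.FormallySmooth k A]

include k

/-- A rational function without poles along the prime divisors through a point is regular at the
point. -/
theorem regular_of_heightOne [IsDomain A] {K : Type*} [Field K] [Algebra A K]
    [IsFractionRing A K] (m : Ideal A) [hm : m.IsMaximal] (x : K)
    (h : ∀ p : Ideal A, p.IsPrime → p.height = 1 → p ≤ m →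
      ∃ a s : A, s ∉ p ∧ x * algebraMap A K s = algebraMap A K a) :
    ∃ a s : A, s ∉ m ∧ x * algebraMap A K s = algebraMap A K a := by
  classical
  have hnoeth : IsNoetherianRing A := Algebra.FiniteType.isNoetherianRing k A
  let I : Ideal A :=
    { carrier := {s | x * algebraMap A K s ∈ (algebraMap A K).range}
      add_mem' := by
        intro a b ha hb
        change x * algebraMap A K (a + b) ∈ (algebraMap A K).range
        rw [map_add, mul_add]
        exact add_mem ha hb
      zero_mem' := by
        change x * algebraMap A K 0 ∈ (algebraMap A K).range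
        rw [map_zero, mul_zero]
        exact zero_mem _
      smul_mem' := by
        intro c a ha
        change x * algebraMap A K (c * a) ∈ (algebraMap A K).range
        rw [map_mul, mul_left_comm]
        exact mul_mem ⟨c, rfl⟩ ha }
  by_cases hIm' : ∃ s ∈ I, s ∉ m
  · obtain ⟨s, ⟨a, ha⟩, hs⟩ := hIm'
    exact ⟨a, s, hs, ha.symm⟩
  exfalso
  have hIm : I ≤ m := by
    intro s hs
    by_contra hsm
    exact hIm' ⟨s, hs, hsm⟩
  have hu := ufd_of_smooth (k := k) m
  have hd1 := hu.1
  have hd2 := hu.2
  have hnoeth2 : IsNoetherianRing (Localization.AtPrime m) :=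
    IsLocalization.isNoetherianRing m.primeCompl _ hnoeth
  obtain ⟨a, b, hab⟩ := IsLocalization.exists_mk'_eq (nonZeroDivisors A) x
  have hb0 : (b : A) ≠ 0 := nonZeroDivisors.ne_zero b.2
  have hxb : x * algebraMap A K (b : A) = algebraMap A K a := by
    rw [← hab, IsLocalization.mk'_spec]
  have hinj : Function.Injective (algebraMap A (Localization.AtPrime m)) :=
    IsLocalization.injective _ m.primeCompl_le_nonZeroDivisors
  have hinjK : Function.Injective (algebraMap A K) := IsFractionRing.injective A K
  set φ := algebraMap A (Localization.AtPrime m) with hφ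
  have hb1 : φ (b : A) ≠ 0 := by
    intro h0
    exact hb0 (hinj (by rw [h0, map_zero]))
  obtain ⟨β, α, c, hrel, hβ, hα⟩ := UniqueFactorizationMonoid.exists_reduced_factors
    (φ (b : A)) hb1 (φ a)
  have hc : c ≠ 0 := by
    rintro rfl
    exact hb1 (by rw [← hβ, zero_mul])
  have hβ0 : β ≠ 0 := by
    rintro rfl
    exact hb1 (by rw [← hβ, mul_zero])
  -- if s with x s = a' then a' β = s α
  have key : ∀ a' s' : A, x * algebraMap A K s' = algebraMap A K a' → φ a' * β = φ s' * α := by
    intro a' s' hs
    have h1 : a' * (b : A) = s' * a := by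
      apply hinjK
      rw [map_mul, map_mul, ← hs, ← hxb]
      ring
    have h2 : φ a' * φ (b : A) = φ s' * φ a := by rw [← map_mul, ← map_mul, h1]
    rw [← hβ, ← hα] at h2
    apply mul_left_cancel₀ hc
    linear_combination h2
  by_cases hunit : IsUnit β
  · -- x lies in the local ring at m
    obtain ⟨v, hv⟩ := hunit
    obtain ⟨a', s', has⟩ := IsLocalization.exists_mk'_eq m.primeCompl (α * ↑v⁻¹ : Localization.AtPrime m)
    have h3 : (α * ↑v⁻¹) * φ (s' : A) = φ a' := by
      rw [← has, IsLocalization.mk'_spec]
    have h4 : φ (s' * a) = φ (a' * b) := by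
      rw [map_mul, map_mul, ← hα, ← hβ, ← h3, ← hv]
      have : (v : Localization.AtPrime m) * ↑v⁻¹ = 1 := Units.mul_inv v
      linear_combination (-(φ (s' : A) * c * α)) * this
    have h5 : (s' : A) * a = a' * b := hinj h4
    have h6 : (s' : A) ∈ I := by
      change x * algebraMap A K (s' : A) ∈ (algebraMap A K).range
      refine ⟨a', ?_⟩
      have hbK : algebraMap A K (b : A) ≠ 0 := by
        intro h0
        exact hb0 (hinjK (by rw [h0, map_zero]))
      apply mul_right_cancel₀ hbK
      rw [← map_mul, ← h5, map_mul, ← hxb]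
      ring
    exact s'.2 (hIm h6)
  · obtain ⟨ϖ, hϖ, hϖβ⟩ := WfDvdMonoid.exists_irreducible_factor hunit hβ0
    have hϖp : Prime ϖ := UniqueFactorizationMonoid.irreducible_iff_prime.1 hϖ
    set P : Ideal (Localization.AtPrime m) := Ideal.span {ϖ} with hP
    have hPp : P.IsPrime := (Ideal.span_singleton_prime hϖp.ne_zero).2 hϖp
    have hPh : P.height = 1 := height_span_prime hϖp
    have hph : (P.under A).height = 1 := by
      rw [IsLocalization.height_under m.primeCompl P, hPh]
    have hPm : P.under A ≤ m := by
      have h10 : P ≤ maximalIdeal (Localization.AtPrime m) := IsLocalRing.le_maximalIdeal hPp.ne_top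
      have h11 : P.under A ≤ (maximalIdeal (Localization.AtPrime m)).under A :=
        Ideal.comap_mono (f := algebraMap A (Localization.AtPrime m)) h10
      rw [IsLocalization.AtPrime.under_maximalIdeal (Localization.AtPrime m) m] at h11
      exact h11
    obtain ⟨a', s', hs', hxs'⟩ := h (P.under A) inferInstance hph hPm
    have h7 := key a' s' hxs'
    have h8 : ϖ ∣ φ s' * α := by
      rw [← h7]
      exact Dvd.dvd.mul_left hϖβ _
    rcases hϖp.dvd_or_dvd h8 with h9 | h9
    · apply hs'
      rw [Ideal.under_def, Ideal.mem_comap, hP, Ideal.mem_span_singleton]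
      exact h9
    · exact hϖp.not_isUnit (hrel hϖβ h9)

end

end Pool.Agent.H12.UF
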